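import Pool.Agent.Q218.LE.Stm2
import Mathlib.Probability.CDF

/-! # Project LE, job UNI: the uniform law is a Lipschitz image of the Gaussian law -/

set_option autoImplicit false

open MeasureTheory ProbabilityTheory Filter Topology Set

namespace Pool.Agent.Q111.LE

theorem pdf_le (x : ℝ) : gaussianPDF 0 1 x ≤ ENNReal.ofReal (1 / 2) := by
  unfold gaussianPDF
  apply ENNReal.ofReal_le_ofReal
  unfold gaussianPDFReal
  have h1 : Real.exp (-(x - 0) ^ 2 / (2 * ((1 : NNReal) : ℝ))) ≤ 1 := by
    rw [Real.exp_le_one_iff]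
    have : 0 ≤ (x - 0) ^ 2 := sq_nonneg _
    have h2 : (2 * ((1 : NNReal) : ℝ)) = 2 := by norm_num
    rw [h2]
    linarith
  have h2 : (√(2 * Real.pi * ((1 : NNReal) : ℝ)))⁻¹ ≤ 1 / 2 := by
    rw [inv_eq_one_div]
    apply one_div_le_one_div_of_le (by norm_num)
    apply Real.le_sqrt_of_sq_le
    have := Real.pi_gt_three
    simp only [NNReal.coe_one]
    linarith
  have h3 : 0 ≤ Real.exp (-(x - 0) ^ 2 / (2 * ((1 : NNReal) : ℝ))) := (Real.exp_pos _).le
  have h4 : 0 ≤ (√(2 * Real.pi * ((1 : NNReal) : ℝ)))⁻¹ := by positivity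
  nlinarith

theorem cdf_sub_le {x y : ℝ} (h : x ≤ y) :
    cdf (gaussianReal 0 1) y - cdf (gaussianReal 0 1) x ≤ (y - x) / 2 := by
  rw [cdf_eq_real, cdf_eq_real]
  have e1 : (gaussianReal 0 1).real (Iic y) = (gaussianReal 0 1).real (Iic x) + (gaussianReal 0 1).real (Ioc x y) := by
    rw [← Iic_union_Ioc_eq_Iic h, measureReal_union (Set.Iic_disjoint_Ioc le_rfl) measurableSet_Ioc]
  rw [e1, add_sub_cancel_left]
  have h1 : (gaussianReal 0 1) (Ioc x y) ≤ ENNReal.ofReal ((y - x) / 2) := by
    rw [gaussianReal_apply _ one_ne_zero]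
    calc ∫⁻ z in Ioc x y, gaussianPDF 0 1 z ≤ ∫⁻ _z in Ioc x y, ENNReal.ofReal (1 / 2) :=
          lintegral_mono fun z => pdf_le z
      _ = ENNReal.ofReal (1 / 2) * volume (Ioc x y) := by rw [setLIntegral_const]
      _ = ENNReal.ofReal ((y - x) / 2) := by
          rw [Real.volume_Ioc, ← ENNReal.ofReal_mul (by norm_num)]
          congr 1
          ring
  unfold Measure.real
  exact ENNReal.toReal_le_of_le_ofReal (by linarith) h1

theorem cdf_strict : StrictMono (cdf (gaussianReal 0 1)) := by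
  intro x y h
  refine lt_of_le_of_ne ((monotone_cdf _) h.le) fun heq => ?_
  rw [cdf_eq_real, cdf_eq_real] at heq
  have e1 : (gaussianReal 0 1).real (Iic y) = (gaussianReal 0 1).real (Iic x) + (gaussianReal 0 1).real (Ioc x y) := by
    rw [← Iic_union_Ioc_eq_Iic h.le, measureReal_union (Set.Iic_disjoint_Ioc le_rfl) measurableSet_Ioc]
  have h0 : (gaussianReal 0 1).real (Ioc x y) = 0 := by linarith
  have h1 : (gaussianReal 0 1) (Ioc x y) = 0 := by
    rwa [measureReal_eq_zero_iff] at h0
  have h2 : (volume : Measure ℝ) (Ioc x y) = 0 := gaussianReal_absolutelyContinuous' 0 one_ne_zero h1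
  rw [Real.volume_Ioc, ENNReal.ofReal_eq_zero] at h2
  linarith

theorem t_UNI : Pool.Agent.Q218.LE.S_UNI := by
  set γ := gaussianReal 0 1 with hγ
  have hlip : ∀ x y : ℝ, |(2 * cdf γ x - 1) - (2 * cdf γ y - 1)| ≤ |x - y| := by
    have key : ∀ x y : ℝ, x ≤ y → |(2 * cdf γ x - 1) - (2 * cdf γ y - 1)| ≤ |x - y| := by
      intro x y h
      have h1 := cdf_sub_le h
      have h2 : cdf γ x ≤ cdf γ y := (monotone_cdf γ) h
      rw [abs_of_nonpos (by linarith), abs_of_nonpos (by linarith)]
      linarith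
    intro x y
    rcases le_total x y with h | h
    · exact key x y h
    · rw [abs_sub_comm, abs_sub_comm x y]; exact key y x h
  have hcont : Continuous (fun x => cdf γ x) := by
    have h1 : LipschitzWith 1 (fun x => 2 * cdf γ x - 1) := by
      refine LipschitzWith.of_dist_le_mul fun x y => ?_
      rw [Real.dist_eq, Real.dist_eq, NNReal.coe_one, one_mul]
      exact hlip x y
    have h2 := h1.continuous
    have h3 : (fun x => cdf γ x) = fun x => ((2 * cdf γ x - 1) + 1) / 2 := by funext x; ring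
    rw [h3]
    fun_prop
  have hpos : ∀ x, 0 < cdf γ x := fun x => (cdf_nonneg γ (x - 1)).trans_lt (cdf_strict (by linarith))
  refine ⟨fun x => 2 * cdf γ x - 1, hlip, ?_⟩
  have hmeas : Measurable (fun x => 2 * cdf γ x - 1) := by
    have : Continuous (fun x => 2 * cdf γ x - 1) := by fun_prop
    exact this.measurable
  have : IsFiniteMeasure (γ.map fun x => 2 * cdf γ x - 1) := Measure.isFiniteMeasure_map _ _
  refine Measure.ext_of_Iic _ _ fun a => ?_
  rw [Measure.map_apply hmeas measurableSet_Iic, Measure.smul_apply, Measure.restrict_apply measurableSet_Iic]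
  rcases le_or_gt 1 a with ha | ha
  · have e1 : (fun x => 2 * cdf γ x - 1) ⁻¹' Iic a = univ := by
      ext x
      simp only [mem_preimage, mem_Iic, mem_univ, iff_true]
      have := cdf_le_one γ x
      linarith
    have e2 : Iic a ∩ Icc (-1 : ℝ) 1 = Icc (-1) 1 := by
      ext x
      simp only [mem_inter_iff, mem_Iic, mem_Icc]
      constructor
      · rintro ⟨_, h⟩; exact h
      · rintro ⟨h1, h2⟩; exact ⟨h2.trans ha, h1, h2⟩
    rw [e1, e2, measure_univ, Real.volume_Icc, smul_eq_mul, ← ENNReal.ofReal_mul (by norm_num)]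
    norm_num
  · have e2 : (volume : Measure ℝ) (Iic a ∩ Icc (-1 : ℝ) 1) = ENNReal.ofReal (a + 1) := by
      have : Iic a ∩ Icc (-1 : ℝ) 1 = Icc (-1) a := by
        ext x
        simp only [mem_inter_iff, mem_Iic, mem_Icc]
        constructor
        · rintro ⟨h0, h1, h2⟩; exact ⟨h1, h0⟩
        · rintro ⟨h1, h2⟩; exact ⟨h2, h1, by linarith⟩
      rw [this, Real.volume_Icc]
      congr 1
      ring
    rw [e2, smul_eq_mul, ← ENNReal.ofReal_mul (by norm_num)]
    rcases le_or_gt a (-1) with hb | hb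
    · have e1 : (fun x => 2 * cdf γ x - 1) ⁻¹' Iic a = ∅ := by
        ext x
        simp only [mem_preimage, mem_Iic, mem_empty_iff_false, iff_false, not_le]
        have := hpos x
        linarith
      rw [e1, measure_empty, ENNReal.ofReal_eq_zero.2 (by linarith)]
    · obtain ⟨x₀, hx₀⟩ : ∃ x₀, cdf γ x₀ = 1 / 2 * (a + 1) := by
        have h1 : ∃ x, cdf γ x ≤ 1 / 2 * (a + 1) :=
          ((tendsto_cdf_atBot γ).eventually_le_const (by linarith)).exists
        have h2 : ∃ x, 1 / 2 * (a + 1) ≤ cdf γ x :=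
          ((tendsto_cdf_atTop γ).eventually_const_le (by linarith)).exists
        exact mem_range_of_exists_le_of_exists_ge hcont h1 h2
      have e1 : (fun x => 2 * cdf γ x - 1) ⁻¹' Iic a = Iic x₀ := by
        ext x
        simp only [mem_preimage, mem_Iic]
        rw [← cdf_strict.le_iff_le (a := x) (b := x₀), ← hγ, hx₀]
        constructor <;> intro h <;> linarith
      rw [e1, ← ofReal_cdf, hx₀]

end Pool.Agent.Q111.LE
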